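import Pool.Agent.H2.T2.Shear

/-!
# Stage 1 at the vertices `z` and `b`, on the union of the cells
-/

open MeasureTheory Set
open scoped ComplexConjugate Real

namespace Pool.Agent.H2.T2

theorem Sys.mono {α β : ℂ} {η η' δ δ' : ℝ} {w f g : ℂ → ℂ} {G G' : Set (ℂ × ℝ)}
    (h : Sys α β η δ w f g G) (h0 : 0 < η') (h1 : η' ≤ η) (h2 : δ ≤ δ') (h3 : G' ⊆ G)
    (h4 : MeasurableSet G') : Sys α β η' δ' w f g G' where
  mw := h.mw
  mf := h.mf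
  mg := h.mg
  mG := h4
  ang x hx := h.ang x (h3 hx)
  force x hx := (h.force x (h3 hx)).trans h2
  im x hx := (h.im x (h3 hx)).trans h2
  lo x hx := h1.trans (h.lo x (h3 hx))
  hi x hx := (h.hi x (h3 hx)).trans (one_div_le_one_div_of_le h0 h1)

/-- Stage 1 at the vertex `z`, on the union of the cells. -/
def S1U (α β : ℂ) : Prop := ∃ C : ℕ, ∀ (η s δ : ℝ) (w f g : ℂ → ℂ) (G : Set (ℂ × ℝ)),
  0 < η → η ≤ 1 / 2 → 0 < s → s ≤ η ^ C → 0 ≤ δ → δ ≤ s → Sys α β η δ w f g G →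
  (∀ x ∈ G, ‖x.1‖ ≤ 1 / η) → ENNReal.ofReal η ≤ volume G →
  ∃ (G' : Set (ℂ × ℝ)) (w₀ : ℤ × ℤ → ℂ), MeasurableSet G' ∧ G' ⊆ G ∧
    ENNReal.ofReal (η ^ C) ≤ volume G' ∧
    ∀ x ∈ G', ‖w x.1 - w₀ (cellOf s x.1)‖ ≤ s / η ^ C

/-- Stage 1 at the vertex `b`, on the union of the cells. -/
def S1B (α β : ℂ) : Prop := ∃ C : ℕ, ∀ (η s δ : ℝ) (w f g : ℂ → ℂ) (G : Set (ℂ × ℝ)),
  0 < η → η ≤ 1 / 2 → 0 < s → s ≤ η ^ C → 0 ≤ δ → δ ≤ η ^ C * s → Sys α β η δ w f g G →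
  (∀ x ∈ G, ‖x.1‖ ≤ 1 / η) → ENNReal.ofReal η ≤ volume G →
  ∃ (G' : Set (ℂ × ℝ)) (v₀ : ℤ × ℤ → ℂ), MeasurableSet G' ∧ G' ⊆ G ∧
    ENNReal.ofReal (η ^ C) ≤ volume G' ∧
    ∀ x ∈ G', ‖g (x.1 + β * ec x.2) - v₀ (cellOf s (x.1 + β * ec x.2))‖ ≤ s / η ^ C

theorem s1u_of {α β : ℂ} (h1 : S1 α β) (h4 : CU) : S1U α β := by
  obtain ⟨C1, h1⟩ := h1
  obtain ⟨C4, h4⟩ := h4
  refine ⟨(C4 + 1) * C1 + C4, ?_⟩
  intro η s δ w f g G hη hη2 hs hsC hδ hδs hS hreg hvol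
  have hη1 : η ≤ 1 := by linarith
  have hs1 : s ≤ 1 := hsC.trans (pow_le_one₀ hη.le hη1)
  set η₁ : ℝ := η ^ (C4 + 1) with hη₁
  have hη₁0 : 0 < η₁ := pow_pos hη _
  have hη₁η : η₁ ≤ η := by
    calc η₁ = η ^ C4 * η := pow_succ _ _
      _ ≤ 1 * η := by gcongr; exact pow_le_one₀ hη.le hη1
      _ = η := one_mul _
  have hη₁4 : η₁ ≤ η ^ C4 := by
    calc η₁ = η ^ C4 * η := pow_succ _ _
      _ ≤ η ^ C4 * 1 := by gcongr
      _ = η ^ C4 := mul_one _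
  have hpow : η₁ ^ C1 = η ^ ((C4 + 1) * C1) := by rw [hη₁, ← pow_mul]
  have hcm : ∀ k, MeasurableSet (G ∩ {x | cellOf s x.1 = k}) := fun k =>
    hS.mG.inter (((measurable_cellOf s).comp measurable_fst) (measurableSet_singleton k))
  have key : ∀ k : ℤ × ℤ, ∃ (S : Set (ℂ × ℝ)) (w₀ : ℂ), MeasurableSet S ∧
      S ⊆ G ∩ {x | cellOf s x.1 = k} ∧ (∀ x ∈ S, ‖w x.1 - w₀‖ ≤ s / η₁ ^ C1) ∧
      (ENNReal.ofReal (η ^ C4 * s ^ 2) ≤ volume (G ∩ {x | cellOf s x.1 = k}) →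
        ENNReal.ofReal (η₁ ^ C1 * s ^ 2) ≤ volume S) := by
    intro k
    by_cases hk : ENNReal.ofReal (η ^ C4 * s ^ 2) ≤ volume (G ∩ {x | cellOf s x.1 = k})
    · obtain ⟨P, w₀, hP, hPw, hPv⟩ := h1 η₁ s δ (corner s k) w f g
        (G ∩ {x | cellOf s x.1 = k}) hη₁0 (hη₁η.trans hη2) hs
        (by
          rw [hpow]
          exact hsC.trans (pow_le_pow_of_le_one hη.le hη1 (Nat.le_add_right _ _))) hδ hδs
        (hS.mono hη₁0 hη₁η le_rfl inter_subset_left (hcm k))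
        (by
          rintro x ⟨-, hx⟩
          rw [← cell_eq_sq hs]
          exact hx)
        (le_trans (ENNReal.ofReal_le_ofReal (by gcongr)) hk)
      refine ⟨(G ∩ {x | cellOf s x.1 = k}) ∩ {x | x.1 ∈ P}, w₀,
        (hcm k).inter (measurable_fst hP), inter_subset_left, fun x hx => hPw _ hx.2,
        fun _ => hPv⟩
    · exact ⟨∅, 0, MeasurableSet.empty, empty_subset _, fun x hx => hx.elim, fun h => (hk h).elim⟩
  choose S w₀ hSm hSs hSw hSv using key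
  refine ⟨⋃ k, S k, w₀, MeasurableSet.iUnion hSm, ?_, ?_, ?_⟩
  · exact iUnion_subset fun k => (hSs k).trans inter_subset_left
  · have := h4 η s (η₁ ^ C1) G S hη hη2 hs hs1 (by positivity) hS.mG
      (fun x hx => ⟨hreg x hx, hS.ang x hx⟩) hvol (fun k => ⟨hSm k, hSs k⟩) hSv
    rwa [hpow, ← pow_add] at this
  · intro x hx
    obtain ⟨k, hk⟩ := mem_iUnion.1 hx
    have hxk : cellOf s x.1 = k := (hSs k hk).2
    rw [hxk]
    refine (hSw k x hk).trans ?_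
    rw [hpow]
    exact div_le_div_of_nonneg_left hs.le (pow_pos hη _)
      (pow_le_pow_of_le_one hη.le hη1 (Nat.le_add_right _ _))

theorem s1b_of {α β : ℂ} (h2 : S1 (α - β) (-β)) (h3 : SwapS α β) (h4 : CU) : S1B α β := by
  obtain ⟨C1, h1⟩ := s1u_of h2 h4
  obtain ⟨C2, hC2, h3⟩ := h3
  obtain ⟨N, hN⟩ := pow_unbounded_of_one_lt C2 (one_lt_two)
  obtain ⟨K, hK⟩ := pow_unbounded_of_one_lt (1 + ‖β‖) (one_lt_two)
  refine ⟨(K + 2) * C1 + N + 2, ?_⟩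
  intro η s δ w f g G hη hη2 hs hsC hδ hδs hS hreg hvol
  have hη1 : η ≤ 1 := by linarith
  have hNη : C2 * η ^ N ≤ 1 := by
    calc C2 * η ^ N ≤ 2 ^ N * (1 / 2) ^ N := by gcongr
      _ = 1 := by rw [← mul_pow]; norm_num
  have hKη : (1 + ‖β‖) * η ^ K ≤ 1 := by
    calc (1 + ‖β‖) * η ^ K ≤ 2 ^ K * (1 / 2) ^ K := by gcongr
      _ = 1 := by rw [← mul_pow]; norm_num
  have hpN : η ^ ((K + 2) * C1 + N + 2) ≤ η ^ N :=
    pow_le_pow_of_le_one hη.le hη1 (by omega)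
  have hC2δ : C2 * δ ≤ s := by
    calc C2 * δ ≤ C2 * (η ^ ((K + 2) * C1 + N + 2) * s) := by gcongr
      _ ≤ C2 * (η ^ N * s) :=
        mul_le_mul_of_nonneg_left (mul_le_mul_of_nonneg_right hpN hs.le) hC2
      _ = C2 * η ^ N * s := by ring
      _ ≤ 1 * s := by gcongr
      _ = s := one_mul _
  have hsη : s ≤ η / 2 := by
    calc s ≤ η ^ ((K + 2) * C1 + N + 2) := hsC
      _ ≤ η ^ 2 := pow_le_pow_of_le_one hη.le hη1 (by omega)
      _ = η * η := pow_two _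
      _ ≤ η * (1 / 2) := by gcongr
      _ = η / 2 := by ring
  obtain ⟨hSb, hvb, -⟩ := h3 η δ w f g G hη hη2 hδ (hC2δ.trans hsη) hS
  set η₂ : ℝ := η ^ (K + 2) with hη₂
  have hη₂0 : 0 < η₂ := pow_pos hη _
  have hη₂η : η₂ ≤ η / 2 := by
    calc η₂ ≤ η ^ 2 := pow_le_pow_of_le_one hη.le hη1 (by omega)
      _ = η * η := pow_two _
      _ ≤ η * (1 / 2) := by gcongr
      _ = η / 2 := by ring
  have hpow : η₂ ^ C1 = η ^ ((K + 2) * C1) := by rw [hη₂, ← pow_mul]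
  have hnorm : 1 / η + ‖β‖ ≤ 1 / η₂ := by
    rw [le_div_iff₀ hη₂0]
    have h5 : (1 / η + ‖β‖) * η₂ = (1 + η * ‖β‖) * η ^ K * η := by
      rw [hη₂, pow_add]
      field_simp
    rw [h5]
    calc (1 + η * ‖β‖) * η ^ K * η ≤ (1 + 1 * ‖β‖) * η ^ K * 1 := by gcongr
      _ = (1 + ‖β‖) * η ^ K := by ring
      _ ≤ 1 := hKη
  obtain ⟨G', v₀, hGm, hGs, hGv, hGw⟩ := h1 η₂ s (C2 * δ) g f w (atB β G) hη₂0
    (by linarith) hs
    (by
      rw [hpow]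
      exact hsC.trans (pow_le_pow_of_le_one hη.le hη1 (by omega)))
    (by positivity) hC2δ (hSb.mono hη₂0 hη₂η le_rfl (subset_refl _) hSb.mG)
    (by
      intro x hx
      have h6 : ‖x.1 - β * ec x.2‖ ≤ 1 / η := hreg _ hx
      have h7 : ‖β * ec x.2‖ = ‖β‖ := by rw [norm_mul, norm_ec, mul_one]
      calc ‖x.1‖ = ‖(x.1 - β * ec x.2) + β * ec x.2‖ := by rw [sub_add_cancel]
        _ ≤ ‖x.1 - β * ec x.2‖ + ‖β * ec x.2‖ := norm_add_le _ _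
        _ ≤ 1 / η + ‖β‖ := by rw [h7]; gcongr
        _ ≤ 1 / η₂ := hnorm)
    (by
      rw [hvb]
      exact (ENNReal.ofReal_le_ofReal (by linarith)).trans hvol)
  have hcm : Measurable fun t : ℝ => β * ec t := measurable_const.mul measurable_ec
  refine ⟨(fun x : ℂ × ℝ => (x.1 + β * ec x.2, x.2)) ⁻¹' G', v₀,
    measurable_shear hcm hGm, ?_, ?_, ?_⟩
  · intro x hx
    have h8 : ((x.1 + β * ec x.2) - β * ec x.2, x.2) ∈ G := hGs hx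
    rwa [add_sub_cancel_right] at h8
  · rw [volume_shear_preimage hcm hGm]
    refine le_trans (ENNReal.ofReal_le_ofReal ?_) hGv
    rw [hpow]
    exact pow_le_pow_of_le_one hη.le hη1 (by omega)
  · intro x hx
    refine (hGw _ hx).trans ?_
    rw [hpow]
    exact div_le_div_of_nonneg_left hs.le (pow_pos hη _)
      (pow_le_pow_of_le_one hη.le hη1 (by omega))

end Pool.Agent.H2.T2
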