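import Pool.Agent.H2.T2.Defs2
import Pool.Agent.H98.T2.AG1a

/-!
# Stage 1 at both vertices, globally
-/

open MeasureTheory Set
open scoped ComplexConjugate Real

namespace Pool.Agent.H2.T2

theorem ag1_of_cross {α β : ℂ} (h1 : S1 α β) (h2 : S1 (α - β) (-β)) (h3 : SwapS α β) (h4 : CU)
    (h5 : Cross β) : AG1 α β := by
  obtain ⟨CU1, hU⟩ := s1u_of h1 h4
  obtain ⟨CB, hB⟩ := s1b_of h2 h3 h4
  obtain ⟨CX, hX⟩ := h5
  set C' : ℕ := CX + CB + 1 with hC'
  refine ⟨C' + CB + (CB + 1) * CU1, ?_⟩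
  intro η s δ w f g G hη hη2 hs hsC hδ hδs hS hreg hvol
  have hη1 : η ≤ 1 := by linarith
  have hmono : ∀ {a b : ℕ}, a ≤ b → η ^ b ≤ η ^ a := fun h => pow_le_pow_of_le_one hη.le hη1 h
  set h : ℝ := s / η ^ C' with hh
  have hpC' : 0 < η ^ C' := pow_pos hη _
  have hpC'1 : η ^ C' ≤ 1 := pow_le_one₀ hη.le hη1
  have hh0 : 0 < h := div_pos hs hpC'
  have hsh : s ≤ h := by
    rw [hh, le_div_iff₀ hpC']
    calc s * η ^ C' ≤ s * 1 := by gcongr
      _ = s := mul_one _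
  have hhCB : h ≤ η ^ CB := by
    rw [hh, div_le_iff₀ hpC', ← pow_add]
    exact hsC.trans (hmono (by omega))
  have hh1 : h ≤ 1 := hhCB.trans (pow_le_one₀ hη.le hη1)
  -- Stage 1 at `b`
  obtain ⟨G1, v₀, hG1m, hG1s, hG1v, hG1w⟩ := hB η h δ w f g G hη hη2 hh0 hhCB hδ
    (by
      refine hδs.trans ?_
      have : s = η ^ C' * h := by rw [hh]; field_simp
      calc s = η ^ C' * h := this
        _ ≤ η ^ CB * h := by
          refine mul_le_mul_of_nonneg_right (hmono (by omega)) hh0.le) hS hreg hvol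
  -- discard the boxes in which `b` changes its cell
  obtain ⟨B, hBm, hBv, hBc⟩ := hX η s h hη hη2 hs hsh hh1
  have hBv' : volume B ≤ ENNReal.ofReal (η ^ CB / 2) := by
    refine hBv.trans (ENNReal.ofReal_le_ofReal ?_)
    have e1 : s / h / η ^ CX = η ^ (CB + 1) := by
      have : C' = (CB + 1) + CX := by omega
      have e2 : η ^ C' = η ^ (CB + 1) * η ^ CX := by rw [this, pow_add]
      rw [hh, e2]
      field_simp
    rw [e1, pow_succ]
    have : 0 < η ^ CB := pow_pos hη _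
    nlinarith
  set G2 : Set (ℂ × ℝ) := G1 \ B with hG2
  have hG2m : MeasurableSet G2 := hG1m.diff hBm
  have hG2s : G2 ⊆ G := (fun _ hx => hG1s hx.1)
  have hG2v : ENNReal.ofReal (η ^ (CB + 1)) ≤ volume G2 := by
    have a1 : ENNReal.ofReal (η ^ CB) ≤ volume B + volume G2 := by
      refine hG1v.trans ?_
      refine (measure_mono ?_).trans (measure_union_le B G2)
      intro x hx
      by_cases hxB : x ∈ B
      · exact Or.inl hxB
      · exact Or.inr ⟨hx, hxB⟩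
    have a2 : ENNReal.ofReal (η ^ CB) ≤ ENNReal.ofReal (η ^ CB / 2) + volume G2 :=
      a1.trans (by gcongr)
    have a3 : ENNReal.ofReal (η ^ CB) =
        ENNReal.ofReal (η ^ CB / 2) + ENNReal.ofReal (η ^ CB / 2) := by
      rw [← ENNReal.ofReal_add (by positivity) (by positivity)]
      congr 1
      ring
    rw [a3] at a2
    have a4 : ENNReal.ofReal (η ^ CB / 2) ≤ volume G2 :=
      (ENNReal.add_le_add_iff_left ENNReal.ofReal_ne_top).1 a2
    refine le_trans (ENNReal.ofReal_le_ofReal ?_) a4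
    rw [pow_succ]
    have : 0 < η ^ CB := pow_pos hη _
    nlinarith
  -- the value of `g` on a box
  have key : ∀ q : (ℤ × ℤ) × ℤ, ∃ v : ℂ, ∀ x ∈ G2, cellOf s x.1 = q.1 → ⌊x.2 / s⌋ = q.2 →
      v₀ (cellOf h (x.1 + β * ec x.2)) = v := by
    intro q
    by_cases hq : ∃ y ∈ G2, cellOf s y.1 = q.1 ∧ ⌊y.2 / s⌋ = q.2
    · obtain ⟨y, hy, hy1, hy2⟩ := hq
      refine ⟨v₀ (cellOf h (y.1 + β * ec y.2)), fun x hx hx1 hx2 => ?_⟩
      have hxG := hG2s hx
      rw [hBc x y (hreg x hxG) (hS.ang x hxG).1 (hS.ang x hxG).2 hx.2 (hy1.trans hx1.symm)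
        (hy2.trans hx2.symm)]
    · exact ⟨0, fun x hx hx1 hx2 => (hq ⟨x, hx, hx1, hx2⟩).elim⟩
  choose g₀ hg₀ using key
  -- Stage 1 at `z`
  have hη₃0 : 0 < η ^ (CB + 1) := pow_pos hη _
  have hη₃η : η ^ (CB + 1) ≤ η := by
    have := hmono (a := 1) (b := CB + 1) (by omega)
    rwa [pow_one] at this
  obtain ⟨G', w₀, hG'm, hG's, hG'v, hG'w⟩ := hU (η ^ (CB + 1)) s δ w f g G2 hη₃0
    (hη₃η.trans hη2) hs
    (by
      rw [← pow_mul]
      exact hsC.trans (hmono (by omega))) hδ hδs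
    (hS.mono hη₃0 hη₃η le_rfl hG2s hG2m)
    (fun x hx => (hreg x (hG2s hx)).trans (one_div_le_one_div_of_le hη₃0 hη₃η)) hG2v
  refine ⟨G', w₀, g₀, hG'm, hG's.trans hG2s, ?_, ?_⟩
  · refine le_trans (ENNReal.ofReal_le_ofReal ?_) hG'v
    rw [← pow_mul]
    exact hmono (by omega)
  · intro x hx
    refine ⟨(hG'w x hx).trans ?_, ?_⟩
    · rw [← pow_mul]
      exact div_le_div_of_nonneg_left hs.le (pow_pos hη _) (hmono (by omega))
    · rw [← hg₀ (cellOf s x.1, ⌊x.2 / s⌋) x (hG's hx) rfl rfl]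
      refine (hG1w x (hG's hx).1).trans ?_
      rw [hh, div_div, ← pow_add]
      exact div_le_div_of_nonneg_left hs.le (pow_pos hη _) (hmono (by omega))

end Pool.Agent.H2.T2
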